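import Mathlib
import Pool.Agent.Results.MP_aa870c_nt.ShuffleTeraiFalse

/-!
# The shuffle variant of the Terai-Jesmanowicz conjecture: all solutions with doubled exponents

`a ^ p + b ^ q = c ^ r` and `c ^ X + b ^ Y = a ^ Z`. All solutions with `q = 2 Y`, `r = 2 X` are
determined: `p = Z`, `a ^ Z = 2 b ^ Y + 1`, `c ^ X = b ^ Y + 1`, or `a = 2`, `p = Z + 1`, and
`(b ^ Y, c ^ X) = (2 ^ (Z - 1) - 1, 2 ^ (Z - 1) + 1)`; the second alternative is exactly the
exceptional families `(2, 7, 3)`, `(2, 2 ^ k - 1, 2 ^ k + 1)` of the question. Under the hypotheses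
of the question this gives an equivalence; it contains infinitely many counterexamples (Pell) and
further ones with other exponents.
-/

set_option autoImplicit false

namespace Pool.Agent.Results.MP_aa870c_nt.DoubledExponents

open Pool.Agent.Results.MP_aa870c_nt.ShuffleTeraiFalse

theorem two_pow_mod {s m : ℕ} (h : 2 ^ m ≡ 2 ^ s [MOD 2 ^ (s + 1)]) : m = s := by
  rcases Nat.lt_trichotomy m s with hlt | heq | hgt
  · exfalso
    have h1 : 2 ^ m < 2 ^ s := Nat.pow_lt_pow_right (by norm_num) hlt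
    have h2 : 2 ^ s < 2 ^ (s + 1) := Nat.pow_lt_pow_right (by norm_num) (Nat.lt_succ_self s)
    have h3 := Nat.ModEq.eq_of_lt_of_lt h (lt_trans h1 h2) h2
    omega
  · exact heq
  · exfalso
    have h1 : 2 ^ (s + 1) ∣ 2 ^ m := pow_dvd_pow 2 hgt
    have h2 : 2 ^ (s + 1) ∣ 2 ^ s := (Nat.ModEq.dvd_iff h dvd_rfl).1 h1
    have h3 := Nat.le_of_dvd (by positivity) h2
    have h4 : 2 ^ s < 2 ^ (s + 1) := Nat.pow_lt_pow_right (by norm_num) (Nat.lt_succ_self s)
    omega

/-- `2 ^ m - 1` is not a proper power. -/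
theorem pow_add_one_eq {b Y m : ℕ} (hb : 1 < b) (hY : 0 < Y) (h : b ^ Y + 1 = 2 ^ m) : Y = 1 := by
  have hm : m ≠ 0 := by
    rintro rfl
    have : 0 < b ^ Y := by positivity
    simp at h
    omega
  have hbY : 1 < b ^ Y := Nat.one_lt_pow hY.ne' hb
  have hodd : b % 2 = 1 := by
    by_contra hc
    have h2 : 2 ∣ b := by omega
    have h3 : 2 ∣ b ^ Y := dvd_pow h2 hY.ne'
    have h4 : 2 ∣ 2 ^ m := dvd_pow_self 2 hm
    omega
  rcases Nat.even_or_odd Y with ⟨t, ht⟩ | hYo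
  · exfalso
    have h1 : b ^ Y = b ^ t * b ^ t := by rw [ht, pow_add]
    have h2 : b ^ t % 2 = 1 := by
      rw [Nat.pow_mod, hodd, one_pow]
      norm_num
    have h3 : b ^ Y % 4 = 1 := by
      rw [h1]
      obtain ⟨u, hu⟩ : ∃ u, b ^ t = 2 * u + 1 := ⟨b ^ t / 2, by omega⟩
      rw [hu]
      have : (2 * u + 1) * (2 * u + 1) = 4 * (u * u + u) + 1 := by ring
      omega
    have h4 : m = 1 := by
      by_contra hc
      have : 2 ^ 2 ∣ 2 ^ m := pow_dvd_pow 2 (by omega)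
      omega
    rw [h4] at h
    omega
  · have hdvd : b + 1 ∣ 2 ^ m := by
      rw [← h]
      have := hYo.nat_add_dvd_pow_add_pow b 1
      simpa using this
    obtain ⟨s, -, hs⟩ := (Nat.dvd_prime_pow Nat.prime_two).1 hdvd
    obtain ⟨u, hu⟩ : ∃ u, b = 2 * u + 1 := ⟨b / 2, by omega⟩
    have hsq : b ^ 2 ≡ 1 [MOD 2 ^ (s + 1)] := by
      have e : b ^ 2 = u * 2 ^ (s + 1) + 1 := by
        rw [pow_succ 2 s, ← hs, hu]
        ring
      rw [e]
      simp
    obtain ⟨v, hv⟩ := hYo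
    have h5 : b ^ Y + 1 ≡ b + 1 [MOD 2 ^ (s + 1)] := by
      have e : b ^ Y = (b ^ 2) ^ v * b := by rw [hv, pow_succ, pow_mul]
      rw [e]
      have h6 : (b ^ 2) ^ v * b ≡ 1 ^ v * b [MOD 2 ^ (s + 1)] := (hsq.pow v).mul_right b
      simpa using h6.add_right 1
    rw [h, hs] at h5
    have h7 := two_pow_mod h5
    rw [h7, ← hs] at h
    have h8 : b ^ Y = b ^ 1 := by simpa using h
    exact Nat.pow_right_injective hb h8

/-- `2 ^ m + 1` is a proper power only for `m = 3`. -/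
theorem pow_eq_add_one {c X m : ℕ} (hc : 1 < c) (hX : 0 < X) (hm : 0 < m) (h : c ^ X = 2 ^ m + 1) :
    X = 1 ∨ (c = 3 ∧ X = 2 ∧ m = 3) := by
  have h2m : 2 ∣ 2 ^ m := dvd_pow_self 2 hm.ne'
  have hodd : c % 2 = 1 := by
    by_contra hcon
    have h2 : 2 ∣ c := by omega
    have h3 : 2 ∣ c ^ X := dvd_pow h2 hX.ne'
    omega
  rcases Nat.even_or_odd X with ⟨t, ht⟩ | hXo
  · right
    obtain ⟨y, hy⟩ : ∃ y, c ^ t = y + 1 := ⟨c ^ t - 1, by
      have : 0 < c ^ t := by positivity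
      omega⟩
    have h1 : c ^ X = c ^ t * c ^ t := by rw [ht, pow_add]
    have h3 : y * (y + 2) = 2 ^ m := by
      rw [h1, hy] at h
      nlinarith
    obtain ⟨i, -, hi⟩ := (Nat.dvd_prime_pow Nat.prime_two).1 (Dvd.intro _ h3)
    obtain ⟨j, -, hj⟩ := (Nat.dvd_prime_pow Nat.prime_two).1 (Dvd.intro_left _ h3)
    have hi1 : i = 1 := by
      rcases Nat.lt_or_ge i 2 with h4 | h4
      · interval_cases i
        · exfalso
          rw [hi] at hj
          have hj2 : j ≠ 0 := by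
            rintro rfl
            simp at hj
          have : 2 ∣ 2 ^ j := dvd_pow_self 2 hj2
          rw [← hj] at this
          norm_num at this
        · rfl
      · exfalso
        have h5 : 2 ^ 2 ∣ 2 ^ i := pow_dvd_pow 2 h4
        have hj1 : j = 1 := by
          by_contra hcon
          rcases Nat.eq_zero_or_pos j with h6 | h6
          · rw [h6] at hj
            omega
          · have : 2 ^ 2 ∣ 2 ^ j := pow_dvd_pow 2 (by omega)
            omega
        rw [hj1] at hj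
        have : 0 < 2 ^ i := by positivity
        omega
    have hy2 : y = 2 := by rw [hi, hi1]; norm_num
    rw [hy2] at hy h3
    have hm3 : m = 3 := by
      have : 2 ^ m = 2 ^ 3 := by rw [← h3]; norm_num
      exact Nat.pow_right_injective (le_refl 2) this
    have ht1 : t = 1 := by
      rcases Nat.lt_or_ge t 2 with h4 | h4
      · interval_cases t
        · simp at hy
        · rfl
      · exfalso
        have h5 : 3 ≤ c := by omega
        have h6 : 3 ^ 2 ≤ c ^ t := (Nat.pow_le_pow_left h5 2).trans (Nat.pow_le_pow_right (by omega) h4)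
        omega
    rw [ht1, pow_one] at hy
    exact ⟨by omega, by omega, hm3⟩
  · left
    obtain ⟨d, hd⟩ : ∃ d, c = d + 1 := ⟨c - 1, by omega⟩
    have hdvd : d ∣ 2 ^ m := by
      have h1 : c - 1 ∣ c ^ X - 1 := by
        simpa using Nat.sub_dvd_pow_sub_pow c 1 X
      have h2 : c ^ X - 1 = 2 ^ m := by omega
      rw [h2] at h1
      have h3 : c - 1 = d := by omega
      rwa [h3] at h1
    obtain ⟨s, -, hs⟩ := (Nat.dvd_prime_pow Nat.prime_two).1 hdvd
    obtain ⟨u, hu⟩ : ∃ u, d = 2 * u := ⟨d / 2, by omega⟩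
    have hsq : c ^ 2 ≡ 1 [MOD 2 ^ (s + 1)] := by
      have e : c ^ 2 = (u + 1) * 2 ^ (s + 1) + 1 := by
        rw [pow_succ 2 s, ← hs, hd, hu]
        ring
      rw [e]
      simp
    obtain ⟨v, hv⟩ := hXo
    have h5 : c ^ X ≡ c [MOD 2 ^ (s + 1)] := by
      have e : c ^ X = (c ^ 2) ^ v * c := by rw [hv, pow_succ, pow_mul]
      rw [e]
      have h6 : (c ^ 2) ^ v * c ≡ 1 ^ v * c [MOD 2 ^ (s + 1)] := (hsq.pow v).mul_right c
      simpa using h6
    rw [h, hd, hs] at h5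
    have h6 : 2 ^ m ≡ 2 ^ s [MOD 2 ^ (s + 1)] := Nat.ModEq.add_right_cancel' 1 h5
    have h7 := two_pow_mod h6
    rw [h7, ← hs, ← hd] at h
    have h8 : c ^ X = c ^ 1 := by simpa using h
    exact Nat.pow_right_injective hc h8

/-- All solutions with `q = 2 Y`, `r = 2 X`. -/
theorem core {a b c p X Y Z : ℕ} (ha : 1 < a) (hb : 1 < b) (hX : 0 < X) (hY : 0 < Y)
    (hg : Nat.gcd a (Nat.gcd b c) = 1) (h1 : a ^ p + b ^ (2 * Y) = c ^ (2 * X))
    (h2 : c ^ X + b ^ Y = a ^ Z) :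
    (p = Z ∧ a ^ Z = 2 * b ^ Y + 1 ∧ c ^ X = b ^ Y + 1) ∨
    (a = 2 ∧ p = Z + 1 ∧ 0 < Z - 1 ∧ b ^ Y + 1 = 2 ^ (Z - 1) ∧ c ^ X = 2 ^ (Z - 1) + 1) := by
  have hab : Nat.Coprime a b := by
    rw [Nat.coprime_iff_gcd_eq_one]
    by_contra hcon
    obtain ⟨q, hq, hqd⟩ := Nat.exists_prime_and_dvd hcon
    have hqa : q ∣ a := hqd.trans (Nat.gcd_dvd_left a b)
    have hqb : q ∣ b := hqd.trans (Nat.gcd_dvd_right a b)
    have hZ : Z ≠ 0 := by
      rintro rfl
      have h3 : 1 < b ^ Y := Nat.one_lt_pow hY.ne' hb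
      simp at h2
      omega
    have hqc : q ∣ c ^ X := by
      have h3 : q ∣ a ^ Z := dvd_pow hqa hZ
      rw [← h2] at h3
      exact (Nat.dvd_add_left (dvd_pow hqb hY.ne')).1 h3
    have hqc' : q ∣ c := hq.dvd_of_dvd_pow hqc
    have : q ∣ Nat.gcd a (Nat.gcd b c) := Nat.dvd_gcd hqa (Nat.dvd_gcd hqb hqc')
    rw [hg] at this
    exact hq.one_lt.ne' (Nat.dvd_one.1 this)
  have hB : 1 < b ^ Y := Nat.one_lt_pow hY.ne' hb
  have e1 : b ^ (2 * Y) = b ^ Y * b ^ Y := by rw [two_mul, pow_add]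
  have e2 : c ^ (2 * X) = c ^ X * c ^ X := by rw [two_mul, pow_add]
  rw [e1, e2] at h1
  have hcopB : Nat.Coprime a (b ^ Y) := hab.pow_right Y
  generalize hBd : b ^ Y = B at *
  generalize hCd : c ^ X = C at *
  have hap : 0 < a ^ p := by positivity
  have hBC : B < C := by
    by_contra hcon
    push Not at hcon
    have : C * C ≤ B * B := Nat.mul_le_mul hcon hcon
    omega
  obtain ⟨D, rfl⟩ : ∃ D, C = B + D := ⟨C - B, by omega⟩
  have hfac : a ^ p = D * a ^ Z := by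
    rw [← h2]
    nlinarith
  have hle : Z ≤ p := by
    have : a ^ Z ∣ a ^ p := Dvd.intro_left D hfac.symm
    exact (Nat.pow_dvd_pow_iff_le_right ha).1 this
  obtain ⟨k, rfl⟩ : ∃ k, p = Z + k := ⟨p - Z, by omega⟩
  have hD : D = a ^ k := by
    have h3 : a ^ (Z + k) = a ^ k * a ^ Z := by rw [pow_add, mul_comm]
    rw [h3] at hfac
    exact (Nat.eq_of_mul_eq_mul_right (by positivity) hfac).symm
  rcases Nat.eq_zero_or_pos k with hk | hk
  · left
    subst hk
    rw [pow_zero] at hD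
    subst hD
    exact ⟨rfl, by omega, rfl⟩
  · right
    have hZ0 : Z ≠ 0 := by
      rintro rfl
      simp at h2
      omega
    have hadvd : a ∣ 2 * B := by
      have h3 : a ∣ a ^ Z := dvd_pow_self a hZ0
      have h4 : a ∣ D := by rw [hD]; exact dvd_pow_self a hk.ne'
      rw [← h2] at h3
      have h5 : B + D + B = 2 * B + D := by ring
      rw [h5] at h3
      exact (Nat.dvd_add_left h4).1 h3
    have ha2 : a = 2 := by
      have h3 : a ∣ 2 := hcopB.dvd_of_dvd_mul_right hadvd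
      have := Nat.le_of_dvd (by norm_num) h3
      omega
    subst ha2
    have hBodd : B % 2 = 1 := by
      have := Nat.Coprime.odd_of_left hcopB
      rw [Nat.odd_iff] at this
      exact this
    have hk1 : k = 1 := by
      by_contra hcon
      have h3 : 2 ^ 2 ∣ 2 ^ k := pow_dvd_pow 2 (by omega)
      have hZk : 2 ≤ Z := by
        by_contra hc2
        have hZ1 : Z = 1 := by omega
        rw [hZ1] at h2
        omega
      have h4 : 2 ^ 2 ∣ 2 ^ Z := pow_dvd_pow 2 hZk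
      rw [hD] at h2
      omega
    subst hk1
    rw [pow_one] at hD
    subst hD
    obtain ⟨z, rfl⟩ : ∃ z, Z = z + 1 := ⟨Z - 1, by omega⟩
    rw [pow_succ] at h2
    have hz : 0 < z := by
      rcases Nat.eq_zero_or_pos z with h | h
      · subst h
        simp at h2
        omega
      · exact h
    have hz1 : z + 1 - 1 = z := by omega
    rw [hz1]
    refine ⟨rfl, rfl, hz, by omega, by omega⟩

/-- **The doubled exponents, under the hypotheses of the question.** -/
theorem doubled (a b c p X Y Z : ℕ) (hX : 0 < X) (hY : 0 < Y) :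
    (Hyp a b c p (2 * Y) (2 * X) ∧ c ^ X + b ^ Y = a ^ Z) ↔
      (1 < a ∧ a < b ∧ 1 < Z ∧ p = Z ∧ ¬ (X = 1 ∧ Y = 1) ∧
        a ^ Z = 2 * b ^ Y + 1 ∧ c ^ X = b ^ Y + 1) := by
  constructor
  · rintro ⟨⟨ha, hb, hc, hg, hp, hq, hr, heq, hab, hex1, hex2, hex3⟩, h2⟩
    rcases core ha hb hX hY hg heq h2 with ⟨h3, h4, h5⟩ | ⟨h3, h4, hZ, h5, h6⟩
    · refine ⟨ha, hab, by omega, h3, ?_, h4, h5⟩
      rintro ⟨rfl, rfl⟩
      exact hex3 ⟨⟨by norm_num, by norm_num⟩, by simpa using h5⟩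
    · exfalso
      have hY1 := pow_add_one_eq hb hY h5
      subst hY1
      rw [pow_one] at h5
      have hb' : b = 2 ^ (Z - 1) - 1 := by omega
      rcases pow_eq_add_one hc hX hZ h6 with hX1 | ⟨hc3, hX2, hm⟩
      · subst hX1
        rw [pow_one] at h6
        exact hex2 (Z - 1) hZ (by rw [h3, hb', h6])
      · rw [hm] at hb'
        exact hex1 (by rw [h3, hb', hc3]; norm_num)
  · rintro ⟨ha, hab, hZ, rfl, hXY, h3, h4⟩
    have hB : 1 < b ^ Y := Nat.one_lt_pow hY.ne' (by omega)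
    have hc : 1 < c := by
      by_contra hcon
      have : c ^ X ≤ 1 ^ X := Nat.pow_le_pow_left (by omega) X
      rw [one_pow] at this
      omega
    refine ⟨⟨ha, by omega, hc, ?_, hZ, by omega, by omega, ?_, hab, ?_, ?_, ?_⟩, ?_⟩
    · have hbc : Nat.gcd b c = 1 := by
        have h5 : Nat.gcd b c ∣ b ^ Y := (Nat.gcd_dvd_left b c).trans (dvd_pow_self b hY.ne')
        have h6 : Nat.gcd b c ∣ c ^ X := (Nat.gcd_dvd_right b c).trans (dvd_pow_self c hX.ne')
        rw [h4] at h6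
        exact Nat.dvd_one.1 ((Nat.dvd_add_right h5).1 h6)
      rw [hbc]
      simp
    · have e1 : b ^ (2 * Y) = b ^ Y * b ^ Y := by rw [two_mul, pow_add]
      have e2 : c ^ (2 * X) = c ^ X * c ^ X := by rw [two_mul, pow_add]
      rw [e1, e2, h3, h4]
      ring
    · intro h
      simp only [Prod.mk.injEq] at h
      rw [h.1] at h3
      have : 2 ∣ 2 ^ p := dvd_pow_self 2 (by omega)
      omega
    · intro k _ h
      simp only [Prod.mk.injEq] at h
      rw [h.1] at h3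
      have : 2 ∣ 2 ^ p := dvd_pow_self 2 (by omega)
      omega
    · rintro ⟨⟨h5, h6⟩, -⟩
      exact hXY ⟨by omega, by omega⟩
    · omega

/-- The counterexamples with `X = 2`, `Y = 1`, `p = q = 2`, `r = 4` given by Pell's equation. -/
theorem pell_is_solution (n : ℕ) :
    Hyp (pell n).2 ((pell n).1 ^ 2 - 1) (pell n).1 2 (2 * 1) (2 * 2) ∧
      (pell n).1 ^ 2 + ((pell n).1 ^ 2 - 1) ^ 1 = (pell n).2 ^ 2 := by
  have h1 := hyp_pell n
  refine ⟨h1, ?_⟩
  have h2 := pell_eq n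
  have h3 : 0 < (pell n).1 ^ 2 := by
    have := (pell_ge n).1
    positivity
  rw [pow_one]
  omega

/-- Every solution of `a ^ 2 + 1 = 2 c ^ 2` with `c > 1` is a term of the sequence `pell`. -/
theorem pell_complete : ∀ c a : ℕ, 1 < c → a ^ 2 + 1 = 2 * c ^ 2 → ∃ n, pell n = (c, a) := by
  intro c
  induction c using Nat.strong_induction_on with
  | _ c ih =>
    intro a hc h
    have hac : c < a := by
      by_contra hcon
      push Not at hcon
      have := Nat.pow_le_pow_left hcon 2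
      nlinarith
    have ha2 : a < 2 * c := by
      by_contra hcon
      push Not at hcon
      have := Nat.pow_le_pow_left hcon 2
      nlinarith
    -- previous solution: `(3 c - 2 a, 3 a - 4 c)`
    have h2a : 2 * a < 3 * c := by
      by_contra hcon
      push Not at hcon
      have := Nat.pow_le_pow_left hcon 2
      nlinarith
    obtain ⟨c', hc'⟩ : ∃ c', 3 * c = 2 * a + c' := ⟨3 * c - 2 * a, by omega⟩
    have h4c : 4 * c ≤ 3 * a := by
      by_contra hcon
      push Not at hcon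
      have := Nat.pow_le_pow_left hcon.le 2
      nlinarith
    obtain ⟨a', ha'⟩ : ∃ a', 3 * a = 4 * c + a' := ⟨3 * a - 4 * c, by omega⟩
    have hc'pos : 0 < c' := by omega
    have hc'lt : c' < c := by omega
    have heq : a' ^ 2 + 1 = 2 * c' ^ 2 := by
      have e1 : (c' : ℤ) = 3 * c - 2 * a := by omega
      have e2 : (a' : ℤ) = 3 * a - 4 * c := by omega
      have h' : (a : ℤ) ^ 2 + 1 = 2 * (c : ℤ) ^ 2 := by exact_mod_cast h
      have : (a' : ℤ) ^ 2 + 1 = 2 * (c' : ℤ) ^ 2 := by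
        rw [e1, e2]
        linarith [h', mul_self_nonneg (a : ℤ)]
      exact_mod_cast this
    rcases Nat.lt_or_ge 1 c' with h5 | h5
    · obtain ⟨n, hn⟩ := ih c' hc'lt a' h5 heq
      refine ⟨n + 1, ?_⟩
      simp only [pell, hn, Prod.mk.injEq]
      omega
    · have h6 : c' = 1 := by omega
      rw [h6] at heq
      have h7 : a' = 1 := by nlinarith
      refine ⟨0, ?_⟩
      simp only [pell, Prod.mk.injEq]
      omega

/-- **Miyazaki's shuffle variant is false; all solutions with doubled exponents.**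
(1) If `a, b > 1`, `gcd (a, b, c) = 1`, `a ^ p + b ^ (2 Y) = c ^ (2 X)` and `c ^ X + b ^ Y = a ^ Z`,
then `p = Z`, `a ^ Z = 2 b ^ Y + 1`, `c ^ X = b ^ Y + 1`, or `a = 2`, `p = Z + 1`, `Y = 1`,
`b = 2 ^ (Z - 1) - 1` and `c = 2 ^ (Z - 1) + 1` or `(b, c) = (7, 3)`: the second alternative consists
of the triples excluded in the question.
(2) Under the hypotheses of the question with `q = 2 Y`, `r = 2 X` the triple `(X, Y, Z)` solves the
permuted equation if and only if `p = Z`, `(X, Y) ≠ (1, 1)`, `a ^ Z = 2 b ^ Y + 1` and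
`c ^ X = b ^ Y + 1`.
(3) The case `X = Z = 2`, `Y = 1` of (2): these counterexamples are exactly the terms of one sequence
given by Pell's equation; in particular there are infinitely many.
(4) There are counterexamples with the exponents `(p, q, r)` equal to `(2, 2, 3)`, `(2, 2, 4)`,
`(3, 2, 4)`, `(2, 2, 8)` and `(5, 4, 2)`; in particular the statement of the question is false. -/
theorem result :
    (∀ a b c p X Y Z : ℕ, 1 < a → 1 < b → 1 < c → 0 < X → 0 < Y → Nat.gcd a (Nat.gcd b c) = 1 →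
      a ^ p + b ^ (2 * Y) = c ^ (2 * X) → c ^ X + b ^ Y = a ^ Z →
      (p = Z ∧ a ^ Z = 2 * b ^ Y + 1 ∧ c ^ X = b ^ Y + 1) ∨
      (a = 2 ∧ p = Z + 1 ∧ Y = 1 ∧ b = 2 ^ (Z - 1) - 1 ∧
        (c = 2 ^ (Z - 1) + 1 ∨ (b = 7 ∧ c = 3)))) ∧
    (∀ a b c p X Y Z : ℕ, 0 < X → 0 < Y →
      ((Hyp a b c p (2 * Y) (2 * X) ∧ c ^ X + b ^ Y = a ^ Z) ↔
        (1 < a ∧ a < b ∧ 1 < Z ∧ p = Z ∧ ¬ (X = 1 ∧ Y = 1) ∧
          a ^ Z = 2 * b ^ Y + 1 ∧ c ^ X = b ^ Y + 1))) ∧
    (∀ a b c : ℕ, (Hyp a b c 2 2 4 ∧ c ^ 2 + b ^ 1 = a ^ 2) ↔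
      ∃ n, (a, b, c) = ((pell n).2, (pell n).1 ^ 2 - 1, (pell n).1)) ∧
    Set.Infinite {t : ℕ × ℕ × ℕ | Hyp t.1 t.2.1 t.2.2 2 2 4 ∧
      t.2.2 ^ 2 + t.2.1 ^ 1 = t.1 ^ 2} ∧
    (Hyp 2 11 5 2 2 3 ∧ ShuffleSolvable 2 11 5) ∧
    (Hyp 7 24 5 2 2 4 ∧ ShuffleSolvable 7 24 5) ∧
    (Hyp 23 6083 78 3 2 4 ∧ ShuffleSolvable 23 6083 78) ∧
    (Hyp 239 28560 13 2 2 8 ∧ ShuffleSolvable 239 28560 13) ∧
    (Hyp 3 11 122 5 4 2 ∧ ShuffleSolvable 3 11 122) ∧
    (¬ ∀ a b c p q r : ℕ, Hyp a b c p q r → ¬ ShuffleSolvable a b c) := by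
  have key : ∀ a b c : ℕ, (Hyp a b c 2 2 4 ∧ c ^ 2 + b ^ 1 = a ^ 2) ↔
      ∃ n, (a, b, c) = ((pell n).2, (pell n).1 ^ 2 - 1, (pell n).1) := by
    intro a b c
    constructor
    · intro h
      have hc : 1 < c := h.1.2.2.1
      obtain ⟨-, -, -, -, -, h3, h4⟩ :=
        (doubled a b c 2 2 1 2 (by norm_num) (by norm_num)).1 h
      rw [pow_one] at h3 h4
      obtain ⟨n, hn⟩ := pell_complete c a hc (by omega)
      refine ⟨n, ?_⟩
      rw [hn]
      simp only [Prod.mk.injEq, true_and, and_true]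
      omega
    · rintro ⟨n, hn⟩
      simp only [Prod.mk.injEq] at hn
      obtain ⟨rfl, rfl, rfl⟩ := hn
      exact pell_is_solution n
  have inst : ∀ a b c p X Y Z : ℕ, 0 < X → 0 < Y → 1 < a → a < b → 1 < Z → p = Z →
      ¬ (X = 1 ∧ Y = 1) → a ^ Z = 2 * b ^ Y + 1 → c ^ X = b ^ Y + 1 →
      Hyp a b c p (2 * Y) (2 * X) ∧ ShuffleSolvable a b c := by
    intro a b c p X Y Z hX hY h1 h2 h3 h4 h5 h6 h7
    have h := (doubled a b c p X Y Z hX hY).2 ⟨h1, h2, h3, h4, h5, h6, h7⟩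
    exact ⟨h.1, X, Y, Z, hX, hY, by omega, h.2⟩
  refine ⟨?_, fun a b c p X Y Z hX hY => doubled a b c p X Y Z hX hY, key, ?_, ?_, ?_, ?_, ?_, ?_, ?_⟩
  · intro a b c p X Y Z ha hb hc hX hY hg h1 h2
    rcases core ha hb hX hY hg h1 h2 with h | ⟨h3, h4, hZ, h5, h6⟩
    · exact Or.inl h
    · right
      have hY1 := pow_add_one_eq hb hY h5
      subst hY1
      rw [pow_one] at h5
      refine ⟨h3, h4, rfl, by omega, ?_⟩
      rcases pow_eq_add_one hc hX hZ h6 with hX1 | ⟨hc3, hX2, hm⟩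
      · subst hX1
        rw [pow_one] at h6
        exact Or.inl h6
      · right
        rw [hm] at h5
        exact ⟨by omega, hc3⟩
  · refine Set.infinite_of_injective_forall_mem
      (f := fun n => ((pell n).2, (pell n).1 ^ 2 - 1, (pell n).1)) ?_ ?_
    · intro m n h
      simp only [Prod.mk.injEq] at h
      exact pell_strictMono.injective h.2.2
    · intro n
      exact pell_is_solution n
  · exact ⟨hyp_sporadic, ⟨1, 1, 4, by norm_num⟩⟩
  · exact inst 7 24 5 2 2 1 2 (by norm_num) (by norm_num) (by norm_num) (by norm_num) (by norm_num)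
      rfl (by norm_num) (by norm_num) (by norm_num)
  · exact inst 23 6083 78 3 2 1 3 (by norm_num) (by norm_num) (by norm_num) (by norm_num)
      (by norm_num) rfl (by norm_num) (by norm_num) (by norm_num)
  · exact inst 239 28560 13 2 4 1 2 (by norm_num) (by norm_num) (by norm_num) (by norm_num)
      (by norm_num) rfl (by norm_num) (by norm_num) (by norm_num)
  · exact inst 3 11 122 5 1 2 5 (by norm_num) (by norm_num) (by norm_num) (by norm_num)
      (by norm_num) rfl (by norm_num) (by norm_num) (by norm_num)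
  · intro h
    exact h 2 11 5 2 2 3 hyp_sporadic ⟨1, 1, 4, by norm_num⟩

end Pool.Agent.Results.MP_aa870c_nt.DoubledExponents
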